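import Pool.Agent.TH661.LPY.Ch5
import Pool.Agent.TH661.LPY.Mod

/-!
Second moments (job 5344, second proof, helper471).
-/

set_option autoImplicit false

namespace Pool.Agent.TH471.LPY

open Finset Pool.Agent.TH661.LPX Pool.Agent.TH661.LPY

theorem av_ch {J : Type*} [Fintype J] [DecidableEq J] (T : Finset J) :
    av (fun σ : J → Bool => ch T σ) = if T = ∅ then 1 else 0 := by
  have h1 : ∀ σ : J → Bool, ch T σ = ∏ i, (if i ∈ T then sg (σ i) else 1) := by
    intro σ
    unfold ch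
    rw [← Finset.prod_filter]
    congr 1
    ext i; simp
  rw [av_congr h1, av_pi (fun (i : J) (b : Bool) => if i ∈ T then sg b else 1)]
  split_ifs with h
  · subst h
    refine Finset.prod_eq_one fun i _ => ?_
    simp only [notMem_empty, if_false]
    exact av_const 1
  · obtain ⟨i, hi⟩ := nonempty_iff_ne_empty.2 h
    refine Finset.prod_eq_zero (mem_univ i) ?_
    simp only [hi, if_true]
    exact av_sg

theorem av_sq {J : Type*} [Fintype J] [DecidableEq J] (𝓔 : Finset (Finset J))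
    (w : Finset J → ℝ) :
    av (fun σ : J → Bool => (∑ E ∈ 𝓔, (∏ i ∈ E, sg (σ i)) * w E) ^ 2) = ∑ E ∈ 𝓔, w E ^ 2 := by
  have h1 : ∀ σ : J → Bool, (∑ E ∈ 𝓔, (∏ i ∈ E, sg (σ i)) * w E) ^ 2 =
      ∑ E ∈ 𝓔, ∑ F ∈ 𝓔, (w E * w F) * ch (symmDiff E F) σ := by
    intro σ
    rw [sq, sum_mul_sum]
    refine sum_congr rfl fun E _ => sum_congr rfl fun F _ => ?_
    rw [ch_symmDiff]
    unfold ch
    ring
  rw [av_congr h1, av_sum]
  refine sum_congr rfl fun E hE => ?_
  rw [av_sum, Finset.sum_eq_single E]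
  · rw [av_mul_left, av_ch, symmDiff_self, bot_eq_empty, if_pos rfl, mul_one, sq]
  · intro F _ hF
    rw [av_mul_left, av_ch, if_neg, mul_zero]
    intro h
    exact hF (symmDiff_eq_bot.1 h).symm
  · exact fun h => absurd hE h

theorem pair5 {X A J : Type*} [Fintype X] [Fintype J] [DecidableEq J] (y : A → X → ℝ)
    (ω : J → A) (L : ℕ) (i : J) (v : X → ℝ) (hv : ∀ x, v x * y (ω i) x = - v x) :
    av (fun x => v x * DL y ω L x)
      = ∑ E ∈ univ.filter (fun E : Finset J => i ∉ E ∧ E.card = L), co y ω v E := by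
  have h1 : av (fun x => v x * DL y ω L x) =
      ∑ E ∈ univ.filter (fun E : Finset J => E.card ≤ L), co y ω v E := by
    unfold co
    rw [← av_sum]
    refine av_congr fun x => ?_
    unfold DL
    rw [mul_sum]
  have hins : ∀ E : Finset J, i ∉ E → co y ω v (insert i E) = - co y ω v E := by
    intro E hE
    unfold co
    rw [← av_neg]
    refine av_congr fun x => ?_
    unfold Y
    rw [prod_insert hE, ← mul_assoc, hv]
    ring
  have h2 : ∑ E ∈ univ.filter (fun E : Finset J => E.card ≤ L), co y ω v E =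
      ∑ E ∈ univ.filter (fun E : Finset J => i ∉ E ∧ E.card ≤ L), co y ω v E +
      ∑ E ∈ univ.filter (fun E : Finset J => i ∈ E ∧ E.card ≤ L), co y ω v E := by
    rw [← sum_filter_add_sum_filter_not (univ.filter (fun E : Finset J => E.card ≤ L))
      (fun E => i ∉ E)]
    congr 1
    · refine sum_congr ?_ fun _ _ => rfl
      ext E; simp only [mem_filter, mem_univ, true_and]; tauto
    · refine sum_congr ?_ fun _ _ => rfl
      ext E; simp only [mem_filter, mem_univ, true_and, not_not]; tauto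
  have h3 : ∑ E ∈ univ.filter (fun E : Finset J => i ∈ E ∧ E.card ≤ L), co y ω v E =
      ∑ E ∈ univ.filter (fun E : Finset J => i ∉ E ∧ E.card + 1 ≤ L), - co y ω v E := by
    refine Finset.sum_nbij' (fun E => E.erase i) (fun E => insert i E) ?_ ?_ ?_ ?_ ?_
    · intro E hE
      simp only [mem_filter, mem_univ, true_and] at hE ⊢
      refine ⟨notMem_erase i E, ?_⟩
      rw [card_erase_add_one hE.1]
      exact hE.2
    · intro E hE
      simp only [mem_filter, mem_univ, true_and] at hE ⊢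
      refine ⟨mem_insert_self i E, ?_⟩
      rw [card_insert_of_notMem hE.1]
      exact hE.2
    · intro E hE
      simp only [mem_filter, mem_univ, true_and] at hE
      exact insert_erase hE.1
    · intro E hE
      simp only [mem_filter, mem_univ, true_and] at hE
      exact erase_insert hE.1
    · intro E hE
      simp only [mem_filter, mem_univ, true_and] at hE
      rw [← hins _ (notMem_erase i E), insert_erase hE.1]
  have h4 : ∑ E ∈ univ.filter (fun E : Finset J => i ∉ E ∧ E.card ≤ L), co y ω v E =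
      ∑ E ∈ univ.filter (fun E : Finset J => i ∉ E ∧ E.card = L), co y ω v E +
      ∑ E ∈ univ.filter (fun E : Finset J => i ∉ E ∧ E.card + 1 ≤ L), co y ω v E := by
    rw [← sum_filter_add_sum_filter_not (univ.filter (fun E : Finset J => i ∉ E ∧ E.card ≤ L))
      (fun E => E.card = L)]
    congr 1
    · refine sum_congr ?_ fun _ _ => rfl
      ext E; simp only [mem_filter, mem_univ, true_and]
      constructor
      · rintro ⟨⟨h1, h2⟩, h3⟩; exact ⟨h1, h3⟩
      · rintro ⟨h1, h3⟩; exact ⟨⟨h1, h3.le⟩, h3⟩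
    · refine sum_congr ?_ fun _ _ => rfl
      ext E; simp only [mem_filter, mem_univ, true_and]
      constructor
      · rintro ⟨⟨h1, h2⟩, h3⟩; exact ⟨h1, by omega⟩
      · rintro ⟨h1, h3⟩; exact ⟨⟨h1, by omega⟩, by omega⟩
  rw [h1, h2, h3, h4, sum_neg_distrib]
  ring

/-- the second moment bound, with the first moments of the squares as a hypothesis -/
theorem second_of {n k : ℕ} {J : Type*} [DecidableEq J] [Fintype J] [Nonempty (Tup n k)] {q : ℕ}
    (b : (Fin n → Bool) → ℝ) (𝓔 : Finset (Finset J)) {e : ℕ → ℝ}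
    (hm : ∀ E ∈ 𝓔, av (fun H : J → Tup n k => ind (ex im q H E) * fI b (so im H E) ^ 2) ≤
      e E.card) {θ : ℝ} (hθ : 0 < θ) :
    av (fun H : J → Tup n k => av (fun σ : J → Bool => ind ((∀ E ∈ 𝓔, ex im q H E) ∧
      θ < |∑ E ∈ 𝓔, co (ye im) (prs H σ) b E|)))
      ≤ (∑ E ∈ 𝓔, e E.card) / θ ^ 2 := by
  have hθ2 : 0 < θ ^ 2 := by positivity
  have h1 : ∀ H : J → Tup n k, av (fun σ : J → Bool => ind ((∀ E ∈ 𝓔, ex im q H E) ∧
      θ < |∑ E ∈ 𝓔, co (ye im) (prs H σ) b E|)) ≤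
      ∑ E ∈ 𝓔, (ind (ex im q H E) * fI b (so im H E) ^ 2) * (1 / θ ^ 2) := by
    intro H
    by_cases hex : ∀ E ∈ 𝓔, ex im q H E
    · have h2 : ∀ σ : J → Bool, ind ((∀ E ∈ 𝓔, ex im q H E) ∧
          θ < |∑ E ∈ 𝓔, co (ye im) (prs H σ) b E|) ≤
          ind (θ ^ 2 < (∑ E ∈ 𝓔, (∏ i ∈ E, sg (σ i)) * fI b (so im H E)) ^ 2) := by
        intro σ
        refine ind_mono fun h => ?_
        have h3 : ∑ E ∈ 𝓔, (∏ i ∈ E, sg (σ i)) * fI b (so im H E) =
            ∑ E ∈ 𝓔, co (ye im) (prs H σ) b E :=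
          sum_congr rfl fun E _ => (co_prs im H σ b E).symm
        rw [h3, ← sq_abs (∑ E ∈ 𝓔, co (ye im) (prs H σ) b E)]
        exact pow_lt_pow_left₀ h.2 hθ.le two_ne_zero
      refine (av_mono h2).trans ((av_ind_lt_le (fun σ => sq_nonneg _) hθ2).trans (le_of_eq ?_))
      rw [av_sq 𝓔 (fun E => fI b (so im H E)), sum_div]
      refine sum_congr rfl fun E hE => ?_
      rw [ind_true (hex E hE), one_mul]
      ring
    · have h2 : ∀ σ : J → Bool, ind ((∀ E ∈ 𝓔, ex im q H E) ∧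
          θ < |∑ E ∈ 𝓔, co (ye im) (prs H σ) b E|) ≤ 0 := by
        intro σ
        rw [ind_false fun h => hex h.1]
      refine (av_le_const h2).trans (sum_nonneg fun E _ => ?_)
      exact mul_nonneg (mul_nonneg (ind_nonneg _) (sq_nonneg _)) (by positivity)
  refine (av_mono h1).trans ?_
  rw [av_sum, sum_div]
  refine sum_le_sum fun E hE => ?_
  rw [av_mul_right, mul_one_div]
  exact div_le_div_of_nonneg_right (hm E hE) hθ2.le

end Pool.Agent.TH471.LPY

namespace Pool.Agent.TH471.LPY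

open Finset Pool.Agent.TH661.LPX Pool.Agent.TH661.LPY

/-- `second5`, from `mom5` -/
theorem second5_of {n k m : ℕ} 
    {J : Type*}
    [DecidableEq J] [Fintype J] [Nonempty (Tup n k)] {L t' q : ℕ} {lam U : ℝ} 
    (b : (Fin n → Bool) → ℝ)
    (hW : ∀ l : ℕ, 0 < l → l ≤ L →
      ∑ S : Finset (Fin n), ((k : ℝ) * l / t') ^ S.card * fI b S ^ 2 ≤ 4 ^ (k * l))
    (hmom5 : ∀ (T : Finset (Fin n) → ℝ), (∀ S, 0 ≤ T S) →
      (∀ l : ℕ, 0 < l → l ≤ L →
        ∑ S : Finset (Fin n), ((k : ℝ) * l / t') ^ S.card * T S ≤ 4 ^ (k * l)) →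
      ∀ {E : Finset J}, 0 < E.card → E.card ≤ L →
      av (fun H : J → Tup n k => ind (ex im q H E) * T (so im H E)) ≤ mbd k m lam U E.card)
    (𝓔 : Finset (Finset J)) (h𝓔 : ∀ E ∈ 𝓔, 0 < E.card ∧ E.card ≤ L) {θ : ℝ} (hθ : 0 < θ) :
    av (fun H : J → Tup n k => av (fun σ : J → Bool => ind ((∀ E ∈ 𝓔, ex im q H E) ∧
      θ < |∑ E ∈ 𝓔, co (ye im) (prs H σ) b E|)))
      ≤ (∑ E ∈ 𝓔, mbd k m lam U E.card) / θ ^ 2 :=
  second_of b 𝓔 (e := mbd k m lam U) (fun E hE => hmom5 (fun S => fI b S ^ 2)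
    (fun S => sq_nonneg _) hW (h𝓔 E hE).1 (h𝓔 E hE).2) hθ

end Pool.Agent.TH471.LPY
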