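import Pool.Agent.TH471.LPY.Sec5
import Pool.Agent.TH661.LPY.Mo5

/-!
Second moments (job 5344, second proof, helper471), with `mom5`.
-/

set_option autoImplicit false

namespace Pool.Agent.TH471.LPY

open Finset Pool.Agent.TH661.LPX Pool.Agent.TH661.LPY

theorem second5 {n k m : ℕ} (hm : 0 < m) (hmn : 2 * (k * m) ≤ n) (hk : 3 ≤ k)
    (hTup : (n : ℝ) ^ k ≤ 2 * Fintype.card (Tup n k)) {J : Type*}
    [DecidableEq J] [Fintype J] [Nonempty (Tup n k)] {L t' q : ℕ} {lam U : ℝ} (hq : 1 ≤ q)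
    (hkL : k * L ≤ t') (hlam : (t' : ℝ) ≤ lam * (k * m)) (hU0 : 0 ≤ U)
    (hU : lam ^ ((k - 1) * q - 1) ≤ U ^ (2 * q))
    (b : (Fin n → Bool) → ℝ)
    (hW : ∀ l : ℕ, 0 < l → l ≤ L →
      ∑ S : Finset (Fin n), ((k : ℝ) * l / t') ^ S.card * fI b S ^ 2 ≤ 4 ^ (k * l))
    (𝓔 : Finset (Finset J)) (h𝓔 : ∀ E ∈ 𝓔, 0 < E.card ∧ E.card ≤ L) {θ : ℝ} (hθ : 0 < θ) :
    av (fun H : J → Tup n k => av (fun σ : J → Bool => ind ((∀ E ∈ 𝓔, ex im q H E) ∧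
      θ < |∑ E ∈ 𝓔, co (ye im) (prs H σ) b E|)))
      ≤ (∑ E ∈ 𝓔, mbd k m lam U E.card) / θ ^ 2 :=
  second5_of b hW (fun T hT hWT _ hE hEL => mom5 hm hmn hk hTup hq hkL hlam hU0 hU T hT hWT hE hEL)
    𝓔 h𝓔 hθ

end Pool.Agent.TH471.LPY

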